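import Pool.Agent.Helper53.LE.REG2

open MeasureTheory Set Filter Topology InnerProductSpace Laplacian

noncomputable section

namespace LEP

/-- the second nonlinearity in the plane. -/
def muf (w : ℂ → ℝ) (p : ℕ) (y : ℂ) : ℝ := psi y / ‖y‖ ^ 4 * (w y / psi y) ^ p

theorem Qd_ne {y : ℂ} (hy : y ∈ Qd) : y ≠ 0 := by
  rintro rfl
  have := hy.1
  simp at this

theorem psi_pos' {y : ℂ} (hy : y ∈ Qd) : 0 < psi y := by
  have h1 : 0 < ‖y‖ := norm_pos_iff.2 (Qd_ne hy)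
  have h2 := hy.1
  have h3 := hy.2
  unfold psi
  positivity

theorem contDiffAt_psi {y : ℂ} (hy : y ∈ Qd) {m : WithTop ℕ∞} : ContDiffAt ℝ m psi y := by
  have h1 : ContDiffAt ℝ m (fun z : ℂ => z.re) y := Complex.reCLM.contDiff.contDiffAt
  have h2 : ContDiffAt ℝ m (fun z : ℂ => z.im) y := Complex.imCLM.contDiff.contDiffAt
  have h3 : ContDiffAt ℝ m (fun z : ℂ => ‖z‖) y := contDiffAt_norm ℝ (Qd_ne hy)
  have h4 : ‖y‖ ≠ 0 := norm_ne_zero_iff.2 (Qd_ne hy)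
  exact (h1.mul h2).div h3 h4

theorem contDiffOn_muf {w : ℂ → ℝ} {D : Set ℂ} (hD : D ⊆ Qd) {m : WithTop ℕ∞}
    (hw : ContDiffOn ℝ m w D) (p : ℕ) : ContDiffOn ℝ m (muf w p) D := by
  have h1 : ContDiffOn ℝ m psi D := fun y hy => (contDiffAt_psi (hD hy)).contDiffWithinAt
  have h3 : ContDiffOn ℝ m (fun z : ℂ => ‖z‖ ^ 4) D := fun y hy =>
    ((contDiffAt_norm ℝ (Qd_ne (hD hy))).pow 4).contDiffWithinAt
  exact (h1.div h3 (fun y hy => pow_ne_zero 4 (norm_ne_zero_iff.2 (Qd_ne (hD hy))))).mul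
    ((hw.div h1 (fun y hy => (psi_pos' (hD hy)).ne')).pow p)

theorem bdd_of_im {D : Set ℂ} (hD : Bornology.IsBounded D) (hQ : D ⊆ Qd) {f : ℂ → ℝ}
    (hf : ∃ C : ℝ, ∀ y ∈ D, |f y| ≤ C * (y ^ 2).im) : ∃ M : ℝ, ∀ y ∈ D, |f y| ≤ M := by
  obtain ⟨C, hC⟩ := hf
  obtain ⟨B, hB⟩ := hD.exists_norm_le
  refine ⟨|C| * B ^ 2, fun y hy => (hC y hy).trans ?_⟩
  have h1 : |(y ^ 2).im| ≤ ‖y ^ 2‖ := Complex.abs_im_le_norm _
  rw [norm_pow] at h1
  have h2 : ‖y‖ ^ 2 ≤ B ^ 2 := pow_le_pow_left₀ (norm_nonneg _) (hB y hy) 2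
  calc C * (y ^ 2).im ≤ |C * (y ^ 2).im| := le_abs_self _
    _ = |C| * |(y ^ 2).im| := abs_mul _ _
    _ ≤ |C| * B ^ 2 := mul_le_mul_of_nonneg_left (h1.trans h2) (abs_nonneg _)

theorem lift_bdd {D : Set ℂ} {Ω : Set E6} {w : ℂ → ℝ}
    (hmem : ∀ x ∈ Ω ∩ offAx, ZZ x ∈ D) (hf : ∃ C : ℝ, ∀ y ∈ D, |w y| ≤ C * (y ^ 2).im) :
    ∃ M : ℝ, 0 ≤ M ∧ ∀ x ∈ Ω, |lift w x| ≤ M := by
  obtain ⟨C, hC⟩ := hf
  refine ⟨2 * |C|, by positivity, fun x hx => ?_⟩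
  have ha0 : 0 ≤ ra x := Real.sqrt_nonneg _
  have hb0 : 0 ≤ rb x := Real.sqrt_nonneg _
  by_cases h : 0 < ra x ∧ 0 < rb x
  · have h1 := hC _ (hmem x ⟨hx, h⟩)
    have h2 : (ZZ x ^ 2).im = 2 * (ra x * rb x) := by
      rw [sq, Complex.mul_im]
      simp only [ZZ]
      ring
    rw [h2] at h1
    have hab : 0 < ra x * rb x := mul_pos h.1 h.2
    unfold lift
    rw [abs_div, abs_of_pos hab, div_le_iff₀ hab]
    calc |w (ZZ x)| ≤ C * (2 * (ra x * rb x)) := h1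
      _ ≤ |C| * (2 * (ra x * rb x)) :=
          mul_le_mul_of_nonneg_right (le_abs_self C) (by positivity)
      _ = 2 * |C| * (ra x * rb x) := by ring
  · have h0 : ra x * rb x = 0 := by
      by_contra hne
      apply h
      refine ⟨lt_of_le_of_ne ha0 ?_, lt_of_le_of_ne hb0 ?_⟩
      · intro h1; apply hne; rw [← h1, zero_mul]
      · intro h1; apply hne; rw [← h1, mul_zero]
    unfold lift
    rw [h0, div_zero, abs_zero]
    positivity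

/-- the algebraic identity for the second equation. -/
theorem muf_lift {w : ℂ → ℝ} {p : ℕ} (hp : 5 ≤ p) {x : E6} (hx : x ∈ offAx)
    (hn : ‖ZZ x‖ = ‖x‖) :
    muf w p (ZZ x) / (ra x * rb x) = ‖x‖ ^ (p - 5) * (lift w x) ^ p := by
  have ha : 0 < ra x := hx.1
  have hb : 0 < rb x := hx.2
  have hr : 0 < ‖x‖ := by
    rw [← hn, norm_pos_iff]
    intro h0
    have : (ZZ x).re = 0 := by rw [h0]; rfl
    exact ha.ne' this
  have hpsi : psi (ZZ x) = ra x * rb x / ‖x‖ := by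
    unfold psi
    rw [hn]
    rfl
  unfold muf lift
  rw [hpsi, hn]
  obtain ⟨q, rfl⟩ : ∃ q, p = q + 5 := ⟨p - 5, by omega⟩
  rw [Nat.add_sub_cancel]
  have e1 : w (ZZ x) / (ra x * rb x / ‖x‖) = w (ZZ x) / (ra x * rb x) * ‖x‖ := by
    field_simp
  rw [e1, mul_pow, pow_add ‖x‖ q 5]
  field_simp

theorem contDiff_norm_even_pow (k : ℕ) (hk : Even k) {m : WithTop ℕ∞} :
    ContDiff ℝ m (fun x : E6 => ‖x‖ ^ k) := by
  obtain ⟨j, rfl⟩ := hk
  have : (fun x : E6 => ‖x‖ ^ (j + j)) = fun x => (‖x‖ ^ 2) ^ j := by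
    funext x
    rw [← pow_mul]
    congr 1
    omega
  rw [this]
  exact (contDiff_norm_sq ℝ).pow j

/-- continuity up to the boundary. -/
theorem continuousOn_closure_of {Ω : Set E6} (hΩ : IsOpen Ω) {U U0 : E6 → ℝ}
    (hU : ContinuousOn U Ω) (heq : ∀ x ∈ Ω ∩ offAx, U x = U0 x)
    (hb : ∀ ξ ∈ frontier Ω, Tendsto U0 (𝓝[Ω ∩ offAx] ξ) (𝓝 0)) :
    ContinuousOn (Ω.indicator U) (closure Ω) := by
  intro ξ hξ
  by_cases hξΩ : ξ ∈ Ω
  · have h1 : ContinuousAt U ξ := hU.continuousAt (hΩ.mem_nhds hξΩ)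
    refine ContinuousAt.continuousWithinAt (h1.congr ?_)
    filter_upwards [hΩ.mem_nhds hξΩ] with y hy
    rw [Set.indicator_of_mem hy]
  · have hfr : ξ ∈ frontier Ω := by
      rw [hΩ.frontier_eq]
      exact ⟨hξ, hξΩ⟩
    have h0 : Ω.indicator U ξ = 0 := Set.indicator_of_notMem hξΩ U
    show Tendsto (Ω.indicator U) (𝓝[closure Ω] ξ) (𝓝 (Ω.indicator U ξ))
    rw [h0, Metric.tendsto_nhds]
    intro ε hε
    have h1 := (Metric.tendsto_nhds.1 (hb ξ hfr)) (ε / 2) (by positivity)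
    rw [eventually_nhdsWithin_iff, eventually_nhds_iff] at h1
    obtain ⟨N, hN1, hN2, hN3⟩ := h1
    rw [eventually_nhdsWithin_iff]
    filter_upwards [hN2.mem_nhds hN3] with y hy _
    by_cases hyΩ : y ∈ Ω
    · rw [Set.indicator_of_mem hyΩ, dist_zero_right, Real.norm_eq_abs]
      have hcl : y ∈ closure ((N ∩ Ω) ∩ offAx) :=
        mem_closure_inter_offAx (hN2.inter hΩ) ⟨hy, hyΩ⟩
      have hne : (𝓝[(N ∩ Ω) ∩ offAx] y).NeBot := mem_closure_iff_nhdsWithin_neBot.1 hcl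
      have hcy : ContinuousAt U y := hU.continuousAt (hΩ.mem_nhds hyΩ)
      have ht : Tendsto (fun z => |U z|) (𝓝[(N ∩ Ω) ∩ offAx] y) (𝓝 |U y|) :=
        (hcy.tendsto.mono_left nhdsWithin_le_nhds).abs
      have hle : |U y| ≤ ε / 2 := by
        refine le_of_tendsto ht ?_
        filter_upwards [self_mem_nhdsWithin] with z hz
        have h2 := hN1 z hz.1.1 ⟨hz.1.2, hz.2⟩
        rw [dist_zero_right, Real.norm_eq_abs] at h2
        rw [heq z ⟨hz.1.2, hz.2⟩]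
        exact h2.le
      linarith
    · rw [Set.indicator_of_notMem hyΩ, dist_self]
      exact hε

theorem st_LIFTSOL (hreg2 : ST_REG2) (hlift : ST_LIFT) (hreg6 : ST_REG6) (hdom : ST_DOM)
    (hbdy : ST_BDY) (hgeo : ST_GEO) : ST_LIFTSOL := by
  intro Rv hRv n p w z hS
  have hP : Prof (Rn Rv n) := (hgeo.2 Rv hRv).2.1 n
  obtain ⟨-, hDo, hUb, -⟩ := hgeo.1 _ hP
  obtain ⟨hZ1, hZ2, hZ3, hD1, hD2⟩ := hdom
  obtain ⟨hOmiff, hOmo, hOmb, hOm0⟩ := hD1 _ hP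
  have hbd := hbdy Rv hRv n
  have hR2 := hreg2 _ hP
  set D : Set ℂ := Ddom (Rn Rv n) with hD
  set Ω : Set E6 := Om (Rn Rv n) with hΩdef
  have hQ : D ⊆ Qd := inter_subset_right
  have hDb : Bornology.IsBounded D := hUb.subset inter_subset_left
  -- planar regularity
  have hmuc : ContinuousOn (muf w p) D := by
    rw [← contDiffOn_zero (𝕜 := ℝ)]
    exact contDiffOn_muf hQ (contDiffOn_zero.2 hS.cw) p
  obtain ⟨M1, hM1⟩ := bdd_of_im hDb hQ (f := muf w p) hS.bmu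
  obtain ⟨M2, hM2⟩ := bdd_of_im hDb hQ (f := z) hS.bz
  have hez : ∀ x ∈ D, z x = TD D (muf w p) x := hS.ez
  have hew : ∀ x ∈ D, w x = TD D z x := hS.ew
  obtain ⟨a1, a2⟩ := hR2 (muf w p) M1 hmuc hM1
  have hz1 : ContDiffOn ℝ 1 z D := a1.congr hez
  obtain ⟨b1, b2⟩ := hR2 z M2 hS.cz hM2
  obtain ⟨b3, b4⟩ := b2 hz1
  have hw2 : ContDiffOn ℝ 2 w D := b3.congr hew
  have hwL : ∀ x ∈ D, (Δ w) x = - z x := fun x hx => by
    rw [laplacian_congr_open hDo hew hx]; exact b4 x hx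
  have hmu1 : ContDiffOn ℝ 1 (muf w p) D :=
    contDiffOn_muf hQ (hw2.of_le (by norm_num)) p
  obtain ⟨a3, a4⟩ := a2 hmu1
  have hz2 : ContDiffOn ℝ 2 z D := a3.congr hez
  have hzL : ∀ x ∈ D, (Δ z) x = - muf w p x := fun x hx => by
    rw [laplacian_congr_open hDo hez hx]; exact a4 x hx
  -- lifts
  have hmem : ∀ x ∈ Ω ∩ offAx, ZZ x ∈ D := fun x hx => (hOmiff x hx.2.1 hx.2.2).1 hx.1
  have hLw : ∀ x ∈ Ω ∩ offAx, ContDiffAt ℝ 2 (lift w) x ∧ (Δ (lift w)) x = - lift z x := by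
    intro x hx
    obtain ⟨c1, c2⟩ := hlift w x hx.2.1 hx.2.2 (hw2.contDiffAt (hDo.mem_nhds (hmem x hx)))
    refine ⟨c1, ?_⟩
    rw [c2, hwL _ (hmem x hx), neg_div]
    rfl
  have hLz : ∀ x ∈ Ω ∩ offAx, ContDiffAt ℝ 2 (lift z) x ∧
      (Δ (lift z)) x = - (‖x‖ ^ (p - 5) * (lift w x) ^ p) := by
    intro x hx
    obtain ⟨c1, c2⟩ := hlift z x hx.2.1 hx.2.2 (hz2.contDiffAt (hDo.mem_nhds (hmem x hx)))
    refine ⟨c1, ?_⟩
    rw [c2, hzL _ (hmem x hx), neg_div, muf_lift (le_trans (by norm_num) hS.p20) hx.2 (hZ1 x).1]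
  obtain ⟨Mw, hMw0, hMw⟩ := lift_bdd (Ω := Ω) hmem hS.bw
  obtain ⟨Mz, hMz0, hMz⟩ := lift_bdd (Ω := Ω) hmem hS.bz
  obtain ⟨B, hB⟩ := hOmb.exists_norm_le
  have hB0 : ∀ x ∈ Ω, ‖x‖ ≤ |B| := fun x hx => (hB x hx).trans (le_abs_self B)
  have hMf : ∀ x ∈ Ω, |‖x‖ ^ (p - 5) * (lift w x) ^ p| ≤ |B| ^ (p - 5) * Mw ^ p := by
    intro x hx
    rw [abs_mul, abs_pow, abs_pow, abs_norm]
    exact mul_le_mul (pow_le_pow_left₀ (norm_nonneg _) (hB0 x hx) _)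
      (pow_le_pow_left₀ (abs_nonneg _) (hMw x hx) _) (by positivity) (by positivity)
  obtain ⟨U, hU1, hUeq, hU2⟩ := hreg6 Ω (lift w) (lift z) (max Mw Mz) hOmo
    (fun x hx => (hMw x hx).trans (le_max_left _ _))
    (fun x hx => (hMz x hx).trans (le_max_right _ _))
    (fun x hx ha hb => ⟨(hLw x ⟨hx, ha, hb⟩).1, (hLz x ⟨hx, ha, hb⟩).1.continuousAt,
      (hLw x ⟨hx, ha, hb⟩).2⟩)
  obtain ⟨V, hV1, hVeq, hV2⟩ := hreg6 Ω (lift z) (fun x => ‖x‖ ^ (p - 5) * (lift w x) ^ p)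
    (max Mz (|B| ^ (p - 5) * Mw ^ p)) hOmo
    (fun x hx => (hMz x hx).trans (le_max_left _ _))
    (fun x hx => (hMf x hx).trans (le_max_right _ _))
    (fun x hx ha hb => ⟨(hLz x ⟨hx, ha, hb⟩).1, by
      exact (continuousAt_id.norm.pow (p - 5)).mul
        ((hLw x ⟨hx, ha, hb⟩).1.continuousAt.pow p), (hLz x ⟨hx, ha, hb⟩).2⟩)
  have hU : ContDiffOn ℝ 2 U Ω := hU2 ⟨V, hV1, hVeq⟩
  have hodd : Odd p := hS.odd
  have hp20 : 20 ≤ p := hS.p20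
  have heven : Even (p - 5) := by
    obtain ⟨k, hk⟩ := hodd
    exact ⟨k - 2, by omega⟩
  have heven1 : Even (p - 1) := by
    obtain ⟨k, hk⟩ := hodd
    exact ⟨k, by omega⟩
  have hV : ContDiffOn ℝ 2 V Ω := hV2 ⟨fun x => ‖x‖ ^ (p - 5) * (U x) ^ p,
    ((contDiff_norm_even_pow (p - 5) heven).contDiffOn).mul (hU1.pow p), fun x hx ha hb => by
      show ‖x‖ ^ (p - 5) * (U x) ^ p = ‖x‖ ^ (p - 5) * (lift w x) ^ p
      rw [hUeq x hx ha hb]⟩
  have hSo : IsOpen (Ω ∩ offAx) := hOmo.inter isOpen_offAx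
  have hdense : ∀ x ∈ Ω, x ∈ closure (Ω ∩ offAx) := fun x hx => mem_closure_inter_offAx hOmo hx
  have hUeq' : ∀ x ∈ Ω ∩ offAx, U x = lift w x := fun x hx => hUeq x hx.1 hx.2.1 hx.2.2
  have hVeq' : ∀ x ∈ Ω ∩ offAx, V x = lift z x := fun x hx => hVeq x hx.1 hx.2.1 hx.2.2
  -- equations
  have hE1 : ∀ x ∈ Ω, (Δ U) x = - V x := by
    refine eqOn_of_dense (S := offAx) (continuousOn_laplacian hOmo hU) hV1.continuousOn.neg
      hdense ?_
    intro x hx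
    rw [laplacian_congr_open hSo hUeq' hx, (hLw x hx).2, hVeq' x hx]
  have hE2 : ∀ x ∈ Ω, (Δ V) x = - (‖x‖ ^ (p - 5) * (U x) ^ p) := by
    refine eqOn_of_dense (S := offAx) (v := fun x => - (‖x‖ ^ (p - 5) * (U x) ^ p))
      (continuousOn_laplacian hOmo hV)
      ((continuous_norm.pow (p - 5)).continuousOn.mul (hU1.continuousOn.pow p)).neg hdense ?_
    intro x hx
    rw [laplacian_congr_open hSo hVeq' hx, (hLz x hx).2, hUeq' x hx]
  -- boundary values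
  have hcu : ContinuousOn (Ω.indicator U) (closure Ω) := by
    refine continuousOn_closure_of hOmo hU1.continuousOn (U0 := lift (TD D z)) ?_ ?_
    · intro x hx
      rw [hUeq' x hx]
      unfold lift
      rw [hew _ (hmem x hx)]
    · intro ξ hξ
      exact hbd z hS.cz hS.bz ξ hξ
  have hcv : ContinuousOn (Ω.indicator V) (closure Ω) := by
    refine continuousOn_closure_of hOmo hV1.continuousOn (U0 := lift (TD D (muf w p))) ?_ ?_
    · intro x hx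
      rw [hVeq' x hx]
      unfold lift
      rw [hez _ (hmem x hx)]
    · intro ξ hξ
      exact hbd (muf w p) hmuc hS.bmu ξ hξ
  have hiu : ∀ x ∈ Ω, Ω.indicator U x = U x := fun x hx => Set.indicator_of_mem hx U
  have hiv : ∀ x ∈ Ω, Ω.indicator V x = V x := fun x hx => Set.indicator_of_mem hx V
  have hfr0 : ∀ x ∈ frontier Ω, x ∉ Ω := by
    intro x hx
    rw [hOmo.frontier_eq] at hx
    exact hx.2
  refine ⟨Ω.indicator U, Ω.indicator V, ?_, ?_⟩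
  · refine ⟨hU.congr hiu, hV.congr hiv, hcu, hcv, fun x hx => ?_, fun x hx => ?_,
      fun x hx => ?_, fun x hx => ?_⟩
    · exact Set.indicator_of_notMem (hfr0 x hx) U
    · exact Set.indicator_of_notMem (hfr0 x hx) V
    · rw [laplacian_congr_open hOmo hiu hx, hE1 x hx, hiv x hx, sub_self, Real.rpow_zero,
        Real.rpow_zero, one_mul, one_mul, neg_neg]
    · rw [laplacian_congr_open hOmo hiv hx, hE2 x hx, hiu x hx, neg_neg]
      have e1 : (p : ℝ) - 5 = ((p - 5 : ℕ) : ℝ) := by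
        rw [Nat.cast_sub (by omega)]; norm_num
      have e2 : (p : ℝ) - 1 = ((p - 1 : ℕ) : ℝ) := by
        rw [Nat.cast_sub (by omega)]; norm_num
      rw [e1, e2, Real.rpow_natCast, Real.rpow_natCast, heven1.pow_abs, mul_assoc, ← pow_succ]
      congr 2
      omega
  · obtain ⟨y, hy, hwy⟩ := hS.nt
    have hyQ := hQ hy
    let x : E6 := WithLp.toLp 2 ![y.re, 0, 0, y.im, 0, 0]
    have hra : ra x = y.re := by
      have : x 0 ^ 2 + x 1 ^ 2 + x 2 ^ 2 = y.re ^ 2 := by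
        simp [x]
      unfold ra
      rw [this, Real.sqrt_sq hyQ.1.le]
    have hrb : rb x = y.im := by
      have : x 3 ^ 2 + x 4 ^ 2 + x 5 ^ 2 = y.im ^ 2 := by
        simp [x]
      unfold rb
      rw [this, Real.sqrt_sq hyQ.2.le]
    have hZ : ZZ x = y := by
      apply Complex.ext
      · exact hra
      · exact hrb
    have hxo : x ∈ offAx := ⟨by rw [hra]; exact hyQ.1, by rw [hrb]; exact hyQ.2⟩
    have hxΩ : x ∈ Ω := by
      rw [hOmiff x hxo.1 hxo.2, hZ]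
      exact hy
    refine ⟨x, hxΩ, ?_⟩
    rw [hiu x hxΩ, hUeq' x ⟨hxΩ, hxo⟩]
    unfold lift
    rw [hZ]
    exact div_ne_zero hwy (mul_pos hxo.1 hxo.2).ne'

end LEP
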