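import Pool.Agent.Helper53.LE.Basic

open MeasureTheory Set Filter Topology InnerProductSpace Laplacian

noncomputable section

namespace LEP

section gen

variable {E : Type*} [NormedAddCommGroup E] [InnerProductSpace ℝ E] [FiniteDimensional ℝ E]

theorem laplacian_eq_sum_fderiv (f : E → ℝ) (x : E) :
    (Δ f) x = ∑ i, fderiv ℝ (fderiv ℝ f) x (stdOrthonormalBasis ℝ E i)
      (stdOrthonormalBasis ℝ E i) := by
  rw [laplacian_eq_iteratedFDeriv_stdOrthonormalBasis]
  refine Finset.sum_congr rfl fun i _ => ?_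
  rw [iteratedFDeriv_two_apply]
  rfl

omit [FiniteDimensional ℝ E] in
theorem fderiv_dir {f : E → ℝ} {x : E} (h : DifferentiableAt ℝ (fderiv ℝ f) x) (v : E) :
    fderiv ℝ (fun y => fderiv ℝ f y v) x v = fderiv ℝ (fderiv ℝ f) x v v := by
  rw [fderiv_clm_apply h (differentiableAt_const v)]
  simp

omit [FiniteDimensional ℝ E] in
theorem differentiableAt_fderiv {f : E → ℝ} {x : E} (h : ContDiffAt ℝ 2 f x) :
    DifferentiableAt ℝ (fderiv ℝ f) x :=
  (h.fderiv_right (m := 1) (by norm_num)).differentiableAt (by norm_num)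

variable [MeasurableSpace E] [BorelSpace E]

theorem integral_dir_symm {T φ : E → ℝ} {Ω : Set E} (hΩ : IsOpen Ω) (hT : ContDiffOn ℝ 2 T Ω)
    (hφ : ContDiff ℝ 2 φ) (hc : HasCompactSupport φ) (hs : tsupport φ ⊆ Ω) (v : E) :
    Integrable (fun x => T x * fderiv ℝ (fderiv ℝ φ) x v v) ∧
    Integrable (fun x => fderiv ℝ (fderiv ℝ T) x v v * φ x) ∧
    ∫ x, T x * fderiv ℝ (fderiv ℝ φ) x v v = ∫ x, fderiv ℝ (fderiv ℝ T) x v v * φ x := by
  have hTat : ∀ x ∈ Ω, ContDiffAt ℝ 2 T x := fun x hx => hT.contDiffAt (hΩ.mem_nhds hx)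
  -- first derivatives of `φ`
  set ψ : E → ℝ := fun y => fderiv ℝ φ y v with hψdef
  have hψ1 : ContDiff ℝ 1 ψ := (hφ.fderiv_right (m := 1) (by norm_num)).clm_apply contDiff_const
  have hψc : HasCompactSupport ψ := hc.fderiv_apply ℝ v
  have hψs : tsupport ψ ⊆ tsupport φ := tsupport_fderiv_apply_subset ℝ v
  have hψd : ∀ x, fderiv ℝ ψ x v = fderiv ℝ (fderiv ℝ φ) x v v := fun x =>
    fderiv_dir (differentiableAt_fderiv hφ.contDiffAt) v
  have hχs : tsupport (fun x => fderiv ℝ ψ x v) ⊆ tsupport φ :=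
    (tsupport_fderiv_apply_subset ℝ v).trans hψs
  have hχc : HasCompactSupport (fun x => fderiv ℝ ψ x v) := hψc.fderiv_apply ℝ v
  have hχcont : Continuous (fun x => fderiv ℝ ψ x v) :=
    (hψ1.continuous_fderiv (by norm_num)).clm_apply continuous_const
  -- first derivatives of `T`
  set T1 : E → ℝ := fun y => fderiv ℝ T y v with hT1def
  have hT1at : ∀ x ∈ Ω, ContDiffAt ℝ 1 T1 x := fun x hx =>
    ((hTat x hx).fderiv_right (m := 1) (by norm_num)).clm_apply contDiffAt_const
  have hT1d : ∀ x ∈ Ω, fderiv ℝ T1 x v = fderiv ℝ (fderiv ℝ T) x v v := fun x hx =>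
    fderiv_dir (differentiableAt_fderiv (hTat x hx)) v
  have hT2c : ∀ x ∈ Ω, ContinuousAt (fun y => fderiv ℝ T1 y v) x := fun x hx =>
    ((hT1at x hx).continuousAt_fderiv (by norm_num)).clm_apply continuousAt_const
  -- integrability of products
  have key : ∀ (a b : E → ℝ), (∀ x ∈ Ω, ContinuousAt a x) → Continuous b →
      tsupport b ⊆ tsupport φ → HasCompactSupport b → Integrable (fun x => a x * b x) := by
    intro a b ha hb hbs hbc
    have h1 : tsupport (fun x => a x * b x) ⊆ Ω :=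
      ((tsupport_mul_subset_right).trans hbs).trans hs
    have h2 : Continuous (fun x => a x * b x) := by
      refine ContinuousOn.continuous_of_tsupport_subset (s := Ω) ?_ hΩ h1
      exact fun x hx => ((ha x hx).mul hb.continuousAt).continuousWithinAt
    exact h2.integrable_of_hasCompactSupport hbc.mul_left
  have i1 : Integrable (fun x => T x * fderiv ℝ ψ x v) :=
    key _ _ (fun x hx => (hTat x hx).continuousAt) hχcont hχs hχc
  have i2 : Integrable (fun x => T1 x * ψ x) :=
    key _ _ (fun x hx => (hT1at x hx).continuousAt) hψ1.continuous hψs hψc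
  have i3 : Integrable (fun x => fderiv ℝ T1 x v * φ x) :=
    key _ _ hT2c hφ.continuous Subset.rfl hc
  have i4 : Integrable (fun x => T x * ψ x) :=
    key _ _ (fun x hx => (hTat x hx).continuousAt) hψ1.continuous hψs hψc
  have i5 : Integrable (fun x => T1 x * φ x) :=
    key _ _ (fun x hx => (hT1at x hx).continuousAt) hφ.continuous Subset.rfl hc
  have e1 : ∫ x, T x * fderiv ℝ ψ x v = - ∫ x, T1 x * ψ x :=
    integral_mul_fderiv_eq_neg_fderiv_mul_of_integrable i2 i1 i4
      (fun x hx => (hTat x (hs (hψs hx))).differentiableAt (by norm_num))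
      (fun x _ => hψ1.differentiable (by norm_num) x)
  have e2 : ∫ x, T1 x * ψ x = - ∫ x, fderiv ℝ T1 x v * φ x :=
    integral_mul_fderiv_eq_neg_fderiv_mul_of_integrable i3 i2 i5
      (fun x hx => (hT1at x (hs hx)).differentiableAt (by norm_num))
      (fun x _ => hφ.differentiable (by norm_num) x)
  have hz : ∀ x, fderiv ℝ (fderiv ℝ T) x v v * φ x = fderiv ℝ T1 x v * φ x := by
    intro x
    by_cases hx : x ∈ Ω
    · rw [hT1d x hx]
    · have : φ x = 0 := image_eq_zero_of_notMem_tsupport (fun h => hx (hs h))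
      rw [this, mul_zero, mul_zero]
  simp_rw [hz, ← hψd]
  refine ⟨i1, i3, ?_⟩
  rw [e1, e2, neg_neg]

theorem integral_laplacian_symm {T φ : E → ℝ} {Ω : Set E} (hΩ : IsOpen Ω)
    (hT : ContDiffOn ℝ 2 T Ω) (hφ : ContDiff ℝ 2 φ) (hc : HasCompactSupport φ)
    (hs : tsupport φ ⊆ Ω) :
    Integrable (fun x => T x * (Δ φ) x) ∧ Integrable (fun x => (Δ T) x * φ x) ∧
    ∫ x, T x * (Δ φ) x = ∫ x, (Δ T) x * φ x := by
  have h := fun v => integral_dir_symm hΩ hT hφ hc hs v
  have e1 : (fun x => T x * (Δ φ) x) = fun x => ∑ i, T x *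
      fderiv ℝ (fderiv ℝ φ) x (stdOrthonormalBasis ℝ E i) (stdOrthonormalBasis ℝ E i) := by
    funext x
    rw [laplacian_eq_sum_fderiv, Finset.mul_sum]
  have e2 : (fun x => (Δ T) x * φ x) = fun x => ∑ i,
      fderiv ℝ (fderiv ℝ T) x (stdOrthonormalBasis ℝ E i) (stdOrthonormalBasis ℝ E i) * φ x := by
    funext x
    rw [laplacian_eq_sum_fderiv, Finset.sum_mul]
  rw [e1, e2]
  refine ⟨integrable_finsetSum _ fun i _ => (h _).1, integrable_finsetSum _ fun i _ => (h _).2.1, ?_⟩
  rw [integral_finsetSum _ fun i _ => (h _).1, integral_finsetSum _ fun i _ => (h _).2.1]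
  exact Finset.sum_congr rfl fun i _ => (h _).2.2

/-- a `C²` weak solution is a classical solution. -/
theorem laplacian_eq_of_weak {T f : E → ℝ} {Ω : Set E} (hΩ : IsOpen Ω) (hT : ContDiffOn ℝ 2 T Ω)
    (hf : ContinuousOn f Ω)
    (hw : ∀ φ : E → ℝ, ContDiff ℝ 2 φ → HasCompactSupport φ → tsupport φ ⊆ Ω →
      ∫ x, T x * (Δ φ) x = - ∫ x, f x * φ x) : ∀ x ∈ Ω, (Δ T) x = - f x := by
  have hcL : ContinuousOn (Δ T) Ω := continuousOn_laplacian hΩ hT
  have hg : ContinuousOn (fun x => (Δ T) x + f x) Ω := hcL.add hf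
  have hae := hΩ.ae_eq_zero_of_integral_contDiff_smul_eq_zero (μ := volume)
    (f := fun x => (Δ T) x + f x) (hg.locallyIntegrableOn hΩ.measurableSet) (by
      intro g hg1 hg2 hg3
      have hg2' : ContDiff ℝ 2 g := by exact_mod_cast contDiff_infty.1 hg1 2
      obtain ⟨a1, a2, a3⟩ := integral_laplacian_symm hΩ hT hg2' hg2 hg3
      have i3 : Integrable (fun x => f x * g x) := by
        have h1 : tsupport (fun x => f x * g x) ⊆ Ω := (tsupport_mul_subset_right).trans hg3
        have h2 : Continuous (fun x => f x * g x) := by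
          refine ContinuousOn.continuous_of_tsupport_subset (s := Ω) ?_ hΩ h1
          exact hf.mul hg1.continuous.continuousOn
        exact h2.integrable_of_hasCompactSupport hg2.mul_left
      have e : (fun x => g x • ((Δ T) x + f x)) = fun x => (Δ T) x * g x + f x * g x := by
        funext x
        simp only [smul_eq_mul]
        ring
      rw [e, integral_add a2 i3, ← a3, hw g hg2' hg2 hg3]
      ring)
  have hr : (fun x => (Δ T) x + f x) =ᵐ[volume.restrict Ω] (fun _ => (0 : ℝ)) := by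
    rw [Filter.EventuallyEq, ae_restrict_iff' hΩ.measurableSet]
    exact hae
  have := Measure.eqOn_open_of_ae_eq hr hΩ hg continuousOn_const
  intro x hx
  have h0 := this hx
  simp only at h0
  linarith

end gen

end LEP
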