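import Pool.Agent.Helper53.LE.REG6
import Pool.Agent.Helper53.LE.Green

open MeasureTheory Set Filter Topology InnerProductSpace Laplacian

noncomputable section

namespace LEP

theorem TD_indicator {D : Set ℂ} (hD : MeasurableSet D) (f : ℂ → ℝ) :
    TD D (D.indicator f) = TD D f := by
  funext x
  unfold TD
  refine setIntegral_congr_fun hD ?_
  intro y hy
  simp only [Set.indicator_of_mem hy]

theorem TD_congr {D : Set ℂ} (hD : MeasurableSet D) {f g : ℂ → ℝ} (h : ∀ y ∈ D, f y = g y) :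
    TD D f = TD D g := by
  funext x
  unfold TD
  refine setIntegral_congr_fun hD ?_
  intro y hy
  simp only [h y hy]

theorem st_REG2 (hweak : ST_WEAK2) (hwreg : ST_WREG) (hfund : ST_FUND2) (hT3 : ST_T3)
    (hgeo : ST_GEO) : ST_REG2 := by
  intro R hR f M hfc hfb
  obtain ⟨-, hDo, hUb, -⟩ := hgeo.1 R hR
  set D := Ddom R with hD
  have hDb : Bornology.IsBounded D := hUb.subset inter_subset_left
  have hDm : MeasurableSet D := hDo.measurableSet
  have hfin : volume D < ⊤ := hDb.measure_lt_top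
  set f0 : ℂ → ℝ := D.indicator f with hf0
  have hf0m : Measurable f0 := measurable_indicator_of_continuousOn hDo hfc
  have hf0b : ∀ x, |f0 x| ≤ |M| := by
    intro x
    by_cases hx : x ∈ D
    · rw [hf0, Set.indicator_of_mem hx]; exact (hfb x hx).trans (le_abs_self M)
    · rw [hf0, Set.indicator_of_notMem hx]; simp
  have hTf : TD D f0 = TD D f := TD_indicator hDm f
  have hi4 : IntegrableOn (fun y => (f0 y) ^ 4) D := by
    have hb : ∀ y, ‖(f0 y) ^ 4‖ ≤ |M| ^ 4 := by
      intro y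
      rw [norm_pow, Real.norm_eq_abs]
      exact pow_le_pow_left₀ (abs_nonneg _) (hf0b y) 4
    exact Measure.integrableOn_of_bounded hfin.ne ((hf0m.pow_const 4).aestronglyMeasurable)
      (ae_of_all _ hb)
  obtain ⟨hTc, hTv⟩ := hT3 R hR f0 hf0m.aestronglyMeasurable hi4
  rw [← hD, hTf] at hTc
  -- boundedness
  obtain ⟨K, hKD, hKc, hK1⟩ := hTv 1 one_pos
  have hbd : ∃ M1 : ℝ, ∀ x ∈ D, |TD D f x| ≤ M1 := by
    obtain ⟨C, hC⟩ := hKc.exists_bound_of_continuousOn (hTc.mono hKD)
    refine ⟨max C 1, fun x hx => ?_⟩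
    by_cases hxK : x ∈ K
    · exact (hC x hxK).trans (le_max_left _ _)
    · have := hK1 x ⟨hx, hxK⟩
      rw [← hD, hTf] at this
      exact this.le.trans (le_max_right _ _)
  obtain ⟨M1, hM1⟩ := hbd
  set M2 : ℝ := max |M| |M1| with hM2
  set u : ℂ → ℝ := D.indicator (TD D f) with hu
  have hum : Measurable u := measurable_indicator_of_continuousOn hDo hTc
  have hueq : ∀ x ∈ D, u x = TD D f x := fun x hx => Set.indicator_of_mem hx _
  have hub : ∀ x, |u x| ≤ M2 := by
    intro x
    by_cases hx : x ∈ D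
    · rw [hueq x hx]
      exact (hM1 x hx).trans ((le_abs_self M1).trans (le_max_right _ _))
    · rw [hu, Set.indicator_of_notMem hx]
      simp [hM2]
  have hf0b2 : ∀ x, |f0 x| ≤ M2 := fun x => (hf0b x).trans (le_max_left _ _)
  have hucont : ∀ x ∈ D, ContinuousAt u x := by
    intro x hx
    have h1 : ContinuousAt (TD D f) x := hTc.continuousAt (hDo.mem_nhds hx)
    refine h1.congr ?_
    filter_upwards [hDo.mem_nhds hx] with y hy
    exact (hueq y hy).symm
  -- weak equation
  have hw2 : ∀ φ : ℂ → ℝ, ContDiff ℝ 2 φ → HasCompactSupport φ → tsupport φ ⊆ D →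
      ∫ x, u x * (Δ φ) x = - ∫ x, f0 x * φ x := by
    intro φ h1 h2 h3
    have h := hweak R hR f0 |M| hf0m hf0b φ h1 h2 h3
    rw [← hD, hTf] at h
    have e1 : ∫ x, u x * (Δ φ) x = ∫ x in D, TD D f x * (Δ φ) x := by
      rw [← integral_indicator hDm]
      refine integral_congr_ae (ae_of_all _ fun x => ?_)
      by_cases hx : x ∈ D
      · simp only [hu, Set.indicator_of_mem hx]
      · simp only [hu, Set.indicator_of_notMem hx, zero_mul]
    have e2 : ∫ x, f0 x * φ x = ∫ x in D, f0 x * φ x := by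
      rw [← integral_indicator hDm]
      refine integral_congr_ae (ae_of_all _ fun x => ?_)
      by_cases hx : x ∈ D
      · simp only [Set.indicator_of_mem hx]
      · simp only [hf0, Set.indicator_of_notMem hx, zero_mul]
    rw [e1, e2, h]
  obtain ⟨v, hv1, hv2, hv3⟩ := hwreg ℂ _ _ _ hfund D u f0 M2 hDo hum hf0m hub hf0b2
    (fun x hx => subset_closure ⟨hx, hucont x hx⟩) (by
      intro φ h1 h2 h3
      exact hw2 φ (by exact_mod_cast contDiff_infty.1 h1 2) h2 h3)
  have hTv' : ∀ x ∈ D, TD D f x = v x := fun x hx =>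
    ((hv2 x hx (hucont x hx)).trans (hueq x hx)).symm
  refine ⟨hv1.congr hTv', ?_⟩
  intro hfC1
  have hf0C1 : ContDiffOn ℝ 1 f0 D := hfC1.congr (fun x hx => Set.indicator_of_mem hx f)
  have hC2 : ContDiffOn ℝ 2 (TD D f) D := (hv3 hf0C1).congr hTv'
  refine ⟨hC2, ?_⟩
  have hC2u : ContDiffOn ℝ 2 u D := hC2.congr hueq
  intro x hx
  have h := laplacian_eq_of_weak hDo hC2u hf0C1.continuousOn hw2 x hx
  rw [laplacian_congr_open hDo hueq hx, hf0, Set.indicator_of_mem hx] at h
  exact h

end LEP
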