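import Pool.Agent.Helper53.LE.Basic

open MeasureTheory Set Filter Topology InnerProductSpace Laplacian

noncomputable section

namespace LEP

theorem measurable_indicator_of_continuousOn {E : Type*} [TopologicalSpace E] [MeasurableSpace E]
    [BorelSpace E] {u : E → ℝ} {S : Set E} (hS : IsOpen S) (hu : ContinuousOn u S) :
    Measurable (S.indicator u) := by
  classical
  rw [← Set.piecewise_eq_indicator]
  exact ContinuousOn.measurable_piecewise hu (continuousOn_const) hS.measurableSet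

theorem reg6_core (hwreg : ST_WREG) (hcut : ST_CUT) (hfund : ST_FUND6) {Ω : Set E6}
    {u f F : E6 → ℝ} {M : ℝ} (hΩ : IsOpen Ω) (hu : ∀ x ∈ Ω, |u x| ≤ M)
    (hs : ∀ x ∈ Ω, 0 < ra x → 0 < rb x → ContDiffAt ℝ 2 u x ∧ ContinuousAt f x ∧
      (Δ u) x = - f x)
    (hM : 0 ≤ M) (hFm : Measurable F) (hFb : ∀ x, |F x| ≤ M) (hF : ∀ x ∈ Ω ∩ offAx, F x = f x) :
    ∃ v : E6 → ℝ, ContDiffOn ℝ 1 v Ω ∧ (∀ x ∈ Ω ∩ offAx, v x = u x) ∧
      (ContDiffOn ℝ 1 F Ω → ContDiffOn ℝ 2 v Ω) := by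
  obtain ⟨c, hc⟩ := hfund
  set S : Set E6 := Ω ∩ offAx with hSdef
  have hSo : IsOpen S := hΩ.inter isOpen_offAx
  have hcu : ContinuousOn u S := fun x hx =>
    ((hs x hx.1 hx.2.1 hx.2.2).1.continuousAt).continuousWithinAt
  have hum : Measurable (S.indicator u) := measurable_indicator_of_continuousOn hSo hcu
  have hub : ∀ x, |S.indicator u x| ≤ M := by
    intro x
    by_cases hx : x ∈ S
    · rw [Set.indicator_of_mem hx]; exact hu x hx.1
    · rw [Set.indicator_of_notMem hx]; simpa using hM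
  have hueq : ∀ x ∈ S, S.indicator u x = u x := fun x hx => Set.indicator_of_mem hx u
  have hcont : ∀ x ∈ S, ContinuousAt (S.indicator u) x := by
    intro x hx
    have h1 : ContinuousAt u x := (hs x hx.1 hx.2.1 hx.2.2).1.continuousAt
    refine h1.congr ?_
    filter_upwards [hSo.mem_nhds hx] with y hy
    exact (hueq y hy).symm
  have hweak := hcut Ω (S.indicator u) F M hΩ (fun x _ => hub x) (fun x _ => hFb x) (by
    intro x hx ha hb
    have hxS : x ∈ S := ⟨hx, ha, hb⟩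
    obtain ⟨h1, h2, h3⟩ := hs x hx ha hb
    refine ⟨contDiffAt_congr_open hSo hueq hxS h1, ?_, ?_⟩
    · refine h2.congr ?_
      filter_upwards [hSo.mem_nhds hxS] with y hy
      exact (hF y hy).symm
    · rw [laplacian_congr_open hSo hueq hxS, h3, hF x hxS])
  obtain ⟨v, hv1, hv2, hv3⟩ := hwreg E6 _ _ c hc Ω (S.indicator u) F M hΩ hum hFm hub hFb (by
    intro x hx
    refine closure_mono ?_ (mem_closure_inter_offAx hΩ hx)
    intro y hy
    exact ⟨hy.1, hcont y hy⟩) hweak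
  exact ⟨v, hv1, fun x hx => (hv2 x hx.1 (hcont x hx)).trans (hueq x hx), hv3⟩

theorem st_REG6 (hcut : ST_CUT) (hwreg : ST_WREG) (hfund : ST_FUND6) : ST_REG6 := by
  intro Ω u f M hΩ hu hf hs
  set S : Set E6 := Ω ∩ offAx with hSdef
  have hSo : IsOpen S := hΩ.inter isOpen_offAx
  have hcf : ContinuousOn f S := fun x hx =>
    ((hs x hx.1 hx.2.1 hx.2.2).2.1).continuousWithinAt
  have hu' : ∀ x ∈ Ω, |u x| ≤ |M| := fun x hx => (hu x hx).trans (le_abs_self M)
  have hf' : ∀ x ∈ Ω, |f x| ≤ |M| := fun x hx => (hf x hx).trans (le_abs_self M)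
  have hM : (0 : ℝ) ≤ |M| := abs_nonneg M
  obtain ⟨v, hv1, hv2, -⟩ := reg6_core hwreg hcut hfund (F := S.indicator f) hΩ hu' hs hM
    (measurable_indicator_of_continuousOn hSo hcf) (by
      intro x
      by_cases hx : x ∈ S
      · rw [Set.indicator_of_mem hx]; exact hf' x hx.1
      · rw [Set.indicator_of_notMem hx]; simp) (fun x hx => Set.indicator_of_mem hx f)
  refine ⟨v, hv1, fun x hx ha hb => hv2 x ⟨hx, ha, hb⟩, ?_⟩
  rintro ⟨f1, hf1, hf1eq⟩
  have hf1b : ∀ x ∈ Ω, |f1 x| ≤ |M| := by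
    intro x hx
    have hcl : x ∈ closure S := mem_closure_inter_offAx hΩ hx
    have hcx : ContinuousAt f1 x := (hf1.contDiffAt (hΩ.mem_nhds hx)).continuousAt
    have : (𝓝[S] x).NeBot := mem_closure_iff_nhdsWithin_neBot.1 hcl
    have ht : Tendsto (fun y => |f1 y|) (𝓝[S] x) (𝓝 |f1 x|) :=
      (hcx.tendsto.mono_left nhdsWithin_le_nhds).abs
    refine le_of_tendsto ht ?_
    filter_upwards [self_mem_nhdsWithin] with y hy
    rw [hf1eq y hy.1 hy.2.1 hy.2.2]
    exact hf' y hy.1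
  obtain ⟨v', hv1', hv2', hv3'⟩ := reg6_core hwreg hcut hfund (F := Ω.indicator f1) hΩ hu' hs hM
    (measurable_indicator_of_continuousOn hΩ hf1.continuousOn) (by
      intro x
      by_cases hx : x ∈ Ω
      · rw [Set.indicator_of_mem hx]; exact hf1b x hx
      · rw [Set.indicator_of_notMem hx]; simp)
    (fun x hx => (Set.indicator_of_mem hx.1 f1).trans (hf1eq x hx.1 hx.2.1 hx.2.2))
  have hC2 : ContDiffOn ℝ 2 v' Ω :=
    hv3' (hf1.congr (fun x hx => Set.indicator_of_mem hx f1))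
  have heq : ∀ x ∈ Ω, v x = v' x :=
    eqOn_of_dense (S := offAx) hv1.continuousOn hv1'.continuousOn
      (fun x hx => mem_closure_inter_offAx hΩ hx)
      (fun x hx => (hv2 x hx).trans (hv2' x hx).symm)
  exact hC2.congr heq

end LEP
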