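import Pool.Agent.Helper14.LE.Stmts2

open MeasureTheory Set Filter Topology InnerProductSpace Laplacian

noncomputable section

namespace LEP

/-- The complement of the axes. -/
def offAx : Set E6 := {x | 0 < ra x ∧ 0 < rb x}

theorem continuous_ra : Continuous ra := by
  unfold ra
  fun_prop

theorem continuous_rb : Continuous rb := by
  unfold rb
  fun_prop

theorem isOpen_offAx : IsOpen offAx := by
  have h1 : IsOpen {x : E6 | 0 < ra x} := isOpen_lt continuous_const continuous_ra
  have h2 : IsOpen {x : E6 | 0 < rb x} := isOpen_lt continuous_const continuous_rb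
  exact h1.inter h2

theorem ra_pos_of {x : E6} (h : x 0 ≠ 0) : 0 < ra x := by
  unfold ra
  apply Real.sqrt_pos.2
  have := sq_pos_of_ne_zero h
  positivity

theorem rb_pos_of {x : E6} (h : x 3 ≠ 0) : 0 < rb x := by
  unfold rb
  apply Real.sqrt_pos.2
  have := sq_pos_of_ne_zero h
  positivity

theorem dense_offAx : Dense offAx := by
  intro x
  let e : E6 := WithLp.toLp 2 (fun _ => (1 : ℝ))
  have he : ∀ i, e i = 1 := fun i => rfl
  have hc : Continuous (fun t : ℝ => x + t • e) := by fun_prop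
  have ht : Tendsto (fun t : ℝ => x + t • e) (𝓝[≠] 0) (𝓝 x) := by
    have h0 : Tendsto (fun t : ℝ => x + t • e) (𝓝 0) (𝓝 (x + (0 : ℝ) • e)) := hc.tendsto 0
    rw [zero_smul, add_zero] at h0
    exact h0.mono_left nhdsWithin_le_nhds
  have hne : ∀ a : ℝ, ∀ᶠ t : ℝ in 𝓝[≠] 0, a + t ≠ 0 := by
    intro a
    by_cases ha : a = 0
    · subst ha
      filter_upwards [self_mem_nhdsWithin] with t ht
      simpa using ht
    · have h1 : Tendsto (fun t : ℝ => a + t) (𝓝 0) (𝓝 (a + 0)) :=
        (continuous_const.add continuous_id).tendsto 0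
      rw [add_zero] at h1
      exact (h1.eventually_ne ha).filter_mono nhdsWithin_le_nhds
  refine mem_closure_of_tendsto ht ?_
  filter_upwards [hne (x 0), hne (x 3)] with t h1 h2
  refine ⟨ra_pos_of ?_, rb_pos_of ?_⟩
  · show (x + t • e) 0 ≠ 0
    have : (x + t • e) 0 = x 0 + t := by
      simp [he]
    rw [this]; exact h1
  · show (x + t • e) 3 ≠ 0
    have : (x + t • e) 3 = x 3 + t := by
      simp [he]
    rw [this]; exact h2

/-- density inside an open set. -/
theorem mem_closure_inter_offAx {Ω : Set E6} (hΩ : IsOpen Ω) {x : E6} (hx : x ∈ Ω) :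
    x ∈ closure (Ω ∩ offAx) :=
  dense_offAx.open_subset_closure_inter hΩ hx

section gen

variable {E : Type*} [NormedAddCommGroup E] [InnerProductSpace ℝ E] [FiniteDimensional ℝ E]

theorem continuousAt_laplacian {u : E → ℝ} {x : E} (h : ContDiffAt ℝ 2 u x) :
    ContinuousAt (Δ u) x := by
  rw [laplacian_eq_iteratedFDeriv_stdOrthonormalBasis]
  have h2 : ContinuousAt (iteratedFDeriv ℝ 2 u) x := by
    exact h.continuousAt_iteratedFDeriv le_rfl
  apply tendsto_finsetSum
  intro i _
  have : Continuous (fun T : E [×2]→L[ℝ] ℝ =>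
      T ![(stdOrthonormalBasis ℝ E) i, (stdOrthonormalBasis ℝ E) i]) := by
    fun_prop
  exact this.continuousAt.comp h2

theorem continuousOn_laplacian {u : E → ℝ} {Ω : Set E} (hΩ : IsOpen Ω)
    (h : ContDiffOn ℝ 2 u Ω) : ContinuousOn (Δ u) Ω := fun x hx =>
  (continuousAt_laplacian (h.contDiffAt (hΩ.mem_nhds hx))).continuousWithinAt

theorem laplacian_congr_open {u v : E → ℝ} {Ω : Set E} (hΩ : IsOpen Ω)
    (h : ∀ x ∈ Ω, u x = v x) {x : E} (hx : x ∈ Ω) : (Δ u) x = (Δ v) x := by
  have : u =ᶠ[𝓝 x] v := by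
    filter_upwards [hΩ.mem_nhds hx] with y hy
    exact h y hy
  exact (laplacian_congr_nhds this).eq_of_nhds

theorem contDiffAt_congr_open {u v : E → ℝ} {Ω : Set E} (hΩ : IsOpen Ω) {n : WithTop ℕ∞}
    (h : ∀ x ∈ Ω, u x = v x) {x : E} (hx : x ∈ Ω) (hv : ContDiffAt ℝ n v x) :
    ContDiffAt ℝ n u x := by
  have : u =ᶠ[𝓝 x] v := by
    filter_upwards [hΩ.mem_nhds hx] with y hy
    exact h y hy
  exact hv.congr_of_eventuallyEq this

/-- two functions, continuous on `Ω`, equal on a dense subset, are equal on `Ω`. -/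
theorem eqOn_of_dense {u v : E → ℝ} {Ω S : Set E} (hu : ContinuousOn u Ω) (hv : ContinuousOn v Ω)
    (hS : ∀ x ∈ Ω, x ∈ closure (Ω ∩ S)) (h : ∀ x ∈ Ω ∩ S, u x = v x) : ∀ x ∈ Ω, u x = v x := by
  have := Set.EqOn.of_subset_closure (f := u) (g := v) (s := Ω ∩ S) (t := Ω) h hu hv
    inter_subset_left (fun x hx => hS x hx)
  exact this

end gen

end LEP
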